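import Mathlib

namespace Pool.Agent.Results.MP_d2e4ca_al.SL2
open Matrix
open scoped commutatorElement PowerSeries.WithPiTopology

/-- Centralizers of non-trivial elements are abelian. -/
def IsCA (G : Type) [Group G] : Prop :=
  ∀ x : G, x ≠ 1 → ∀ y ∈ Subgroup.centralizer {x}, ∀ z ∈ Subgroup.centralizer {x}, y * z = z * y

/-- All quotients by open normal subgroups are soluble. -/
def Prosoluble (G : Type) [Group G] [TopologicalSpace G] : Prop :=
  ∀ N : OpenNormalSubgroup G, Group.IsSolvable (G ⧸ N.toSubgroup)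

section
variable {R : Type} [CommRing R]

lemma comm_iff (x y : SpecialLinearGroup (Fin 2) R) : x * y = y * x ↔
    x 0 1 * y 1 0 = x 1 0 * y 0 1 ∧ y 0 1 * (x 0 0 - x 1 1) = x 0 1 * (y 0 0 - y 1 1) ∧
      y 1 0 * (x 0 0 - x 1 1) = x 1 0 * (y 0 0 - y 1 1) := by
  constructor
  · intro h
    have h00 := congrArg (fun m : SpecialLinearGroup (Fin 2) R => m 0 0) h
    have h01 := congrArg (fun m : SpecialLinearGroup (Fin 2) R => m 0 1) h
    have h10 := congrArg (fun m : SpecialLinearGroup (Fin 2) R => m 1 0) h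
    simp [mul_apply, Fin.sum_univ_two] at h00 h01 h10
    exact ⟨by linear_combination h00, by linear_combination h01, by linear_combination -h10⟩
  · rintro ⟨h1, h2, h3⟩
    ext i j
    fin_cases i <;> fin_cases j <;> simp [mul_apply, Fin.sum_univ_two]
    · linear_combination h1
    · linear_combination h2
    · linear_combination -h3
    · linear_combination -h1

lemma ca [IsDomain R] (h2 : (2 : R) = 0) : IsCA (SpecialLinearGroup (Fin 2) R) := by
  intro x hx y hy z hz
  rw [Subgroup.mem_centralizer_iff] at hy hz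
  obtain ⟨a1, a2, a3⟩ := (comm_iff x y).1 (hy x rfl)
  obtain ⟨b1, b2, b3⟩ := (comm_iff x z).1 (hz x rfl)
  rw [comm_iff]
  by_cases hb : x 0 1 = 0
  · by_cases hc : x 1 0 = 0
    · have hd : x 0 0 - x 1 1 ≠ 0 := by
        intro hd
        have hdet := x.det_coe
        rw [det_fin_two] at hdet
        have h11 : x 1 1 = x 0 0 := by linear_combination -hd
        have : (x 0 0 - 1) ^ 2 = 0 := by
          have e : x.1 0 0 * x.1 1 1 - x.1 0 1 * x.1 1 0 = x 0 0 * x 1 1 - x 0 1 * x 1 0 := rfl
          rw [e, hb, h11] at hdet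
          linear_combination hdet + (1 - x 0 0) * h2
        have h00 : x 0 0 = 1 := by linear_combination pow_eq_zero_iff (two_ne_zero) |>.1 this
        apply hx
        ext i j
        fin_cases i <;> fin_cases j <;> simp [hb, hc, h11, h00]
      refine ⟨mul_left_cancel₀ hd ?_, mul_left_cancel₀ hd ?_, mul_left_cancel₀ hd ?_⟩
      · linear_combination z 1 0 * a2 - y 1 0 * b2 + (z 1 0 * (y 0 0 - y 1 1) - y 1 0 * (z 0 0 - z 1 1)) * hb
      · linear_combination (y 0 0 - y 1 1) * b2 - (z 0 0 - z 1 1) * a2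
      · linear_combination (y 0 0 - y 1 1) * b3 - (z 0 0 - z 1 1) * a3
    · have g3 : z 1 0 * (y 0 0 - y 1 1) = y 1 0 * (z 0 0 - z 1 1) :=
        mul_left_cancel₀ hc (by linear_combination y 1 0 * b3 - z 1 0 * a3)
      refine ⟨mul_left_cancel₀ hc ?_, mul_left_cancel₀ hc ?_, g3⟩
      · linear_combination y 1 0 * b1 - z 1 0 * a1
      · linear_combination (z 0 0 - z 1 1) * a1 - (y 0 0 - y 1 1) * b1 + x 0 1 * g3
  · have g2 : z 0 1 * (y 0 0 - y 1 1) = y 0 1 * (z 0 0 - z 1 1) :=
      mul_left_cancel₀ hb (by linear_combination y 0 1 * b2 - z 0 1 * a2)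
    refine ⟨mul_left_cancel₀ hb ?_, g2, mul_left_cancel₀ hb ?_⟩
    · linear_combination y 0 1 * b1 - z 0 1 * a1
    · linear_combination (y 0 0 - y 1 1) * b1 - (z 0 0 - z 1 1) * a1 + x 1 0 * g2

def U (b : R) : SpecialLinearGroup (Fin 2) R := ⟨!![1, b; 0, 1], by simp [det_fin_two]⟩
def L (b : R) : SpecialLinearGroup (Fin 2) R := ⟨!![1, 0; b, 1], by simp [det_fin_two]⟩

lemma mem_derived {a a' c : R} (ha : a * a' = 1) (hc : c * (a * a - 1) = 1) (n : ℕ) :
    ∀ b : R, U b ∈ derivedSeries (SpecialLinearGroup (Fin 2) R) n ∧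
      L b ∈ derivedSeries (SpecialLinearGroup (Fin 2) R) n := by
  induction n with
  | zero => intro b; simp
  | succ n ih =>
    let d : SpecialLinearGroup (Fin 2) R := ⟨!![a, 0; 0, a'], by simp [det_fin_two, ha]⟩
    have hd : d = U (a - 1) * L 1 * U (a' - 1) * L (-a) * U 0 := by
      ext i j
      fin_cases i <;> fin_cases j <;> simp [d, U, L, mul_apply, Fin.sum_univ_two]
      · linear_combination a * ha
      · linear_combination -ha
      · linear_combination ha
    have hdm : d ∈ derivedSeries (SpecialLinearGroup (Fin 2) R) n := by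
      rw [hd]
      exact mul_mem (mul_mem (mul_mem (mul_mem (ih _).1 (ih _).2) (ih _).1) (ih _).2) (ih _).1
    intro b
    rw [derivedSeries_succ]
    constructor
    · have : U b = ⁅d, U (b * c)⁆ := by
        rw [commutatorElement_def, eq_mul_inv_iff_mul_eq, eq_mul_inv_iff_mul_eq]
        ext i j
        fin_cases i <;> fin_cases j <;> simp [d, U, mul_apply, Fin.sum_univ_two]
        linear_combination (a * b * c) * ha - a' * b * hc
      rw [this]
      exact Subgroup.commutator_mem_commutator hdm (ih _).1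
    · have : L b = ⁅d⁻¹, L (b * c)⁆ := by
        rw [commutatorElement_def, eq_mul_inv_iff_mul_eq, inv_inv, mul_assoc, eq_inv_mul_iff_mul_eq]
        ext i j
        fin_cases i <;> fin_cases j <;> simp [d, L, mul_apply, Fin.sum_univ_two]
        linear_combination (a * b * c) * ha - a' * b * hc
      rw [this]
      exact Subgroup.commutator_mem_commutator (inv_mem hdm) (ih _).2
end

theorem result : ∃ (G : Type) (_ : Group G) (_ : TopologicalSpace G), IsTopologicalGroup G ∧
    CompactSpace G ∧ T2Space G ∧ TotallyDisconnectedSpace G ∧ Infinite G ∧ IsCA G ∧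
    ¬ Prosoluble G ∧ ∃ x : G, x ≠ 1 ∧
      ∀ (H : Type) [Group H] [Group.IsSolvable H] (f : G →* H), f x = 1 := by
  let K := GaloisField 2 2
  let _ : TopologicalSpace K := ⊥
  have : DiscreteTopology K := ⟨rfl⟩
  have : IsTopologicalRing K := inferInstance
  have : CompactSpace (PowerSeries K) := inferInstanceAs (CompactSpace ((Unit →₀ ℕ) → K))
  have : TotallyDisconnectedSpace (PowerSeries K) :=
    inferInstanceAs (TotallyDisconnectedSpace ((Unit →₀ ℕ) → K))
  have : CompactSpace (Matrix (Fin 2) (Fin 2) (PowerSeries K)) :=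
    inferInstanceAs (CompactSpace (Fin 2 → Fin 2 → PowerSeries K))
  have : TotallyDisconnectedSpace (Matrix (Fin 2) (Fin 2) (PowerSeries K)) :=
    inferInstanceAs (TotallyDisconnectedSpace (Fin 2 → Fin 2 → PowerSeries K))
  have hc : CompactSpace (SpecialLinearGroup (Fin 2) (PowerSeries K)) :=
    SpecialLinearGroup.isClosedEmbedding_val.compactSpace
  have ht : TotallyDisconnectedSpace (SpecialLinearGroup (Fin 2) (PowerSeries K)) :=
    inferInstanceAs (TotallyDisconnectedSpace (Subtype _))
  have h2 : T2Space (SpecialLinearGroup (Fin 2) (PowerSeries K)) :=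
    SpecialLinearGroup.isClosedEmbedding_val.isEmbedding.t2Space
  have htwo : (2 : K) = 0 := CharTwo.two_eq_zero
  obtain ⟨a, ha0, ha1⟩ : ∃ a : K, a ≠ 0 ∧ a ≠ 1 := by
    by_contra h
    push Not at h
    have hcard : Nat.card K = 2 ^ 2 := GaloisField.card 2 2 two_ne_zero
    have : Nat.card K ≤ Nat.card Bool := by
      classical
      refine Nat.card_le_card_of_injective (fun x => decide (x = 0)) fun x y hxy => ?_
      by_cases hx : x = 0 <;> by_cases hy : y = 0 <;> simp_all
    simp [hcard] at this
  have ha2 : a * a - 1 ≠ 0 := by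
    have : a * a - 1 = (a - 1) ^ 2 := by linear_combination (a - 1) * htwo
    rw [this]
    exact pow_ne_zero _ (sub_ne_zero.2 ha1)
  have key := mem_derived (R := PowerSeries K) (a := PowerSeries.C a) (a' := PowerSeries.C a⁻¹)
    (c := PowerSeries.C (a * a - 1)⁻¹) (by rw [← map_mul, mul_inv_cancel₀ ha0, map_one])
    (by rw [← map_mul, ← map_one (PowerSeries.C (R := K)), ← map_sub, ← map_mul,
      inv_mul_cancel₀ ha2])
  have hU : U (1 : PowerSeries K) ≠ 1 := by
    intro h
    have := congrArg (fun m : SpecialLinearGroup (Fin 2) (PowerSeries K) => m 0 1) h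
    simp [U] at this
  have hk : ∀ (H : Type) [Group H] [Group.IsSolvable H]
      (f : SpecialLinearGroup (Fin 2) (PowerSeries K) →* H), f (U 1) = 1 := by
    intro H _ hH f
    obtain ⟨n, hn⟩ := hH.solvable
    have := map_derivedSeries_le_derivedSeries f n ⟨_, (key n 1).1, rfl⟩
    rwa [hn, Subgroup.mem_bot] at this
  refine ⟨SpecialLinearGroup (Fin 2) (PowerSeries K), inferInstance, inferInstance, inferInstance,
    hc, h2, ht, ?_, ca ?_, ?_, U 1, hU, hk⟩
  · have : Infinite (PowerSeries K) :=
      Infinite.of_injective _ (Polynomial.coe_injective K)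
    refine Infinite.of_injective (U (R := PowerSeries K)) fun x y h => ?_
    simpa [U] using congrArg (fun m : SpecialLinearGroup (Fin 2) (PowerSeries K) => m 0 1) h
  · rw [← map_ofNat (PowerSeries.C (R := K)) 2, htwo, map_zero]
  · intro hp
    obtain ⟨N, hN⟩ := ProfiniteGrp.exist_openNormalSubgroup_sub_open_nhds_of_one
      (isOpen_compl_singleton (x := U (1 : PowerSeries K))) (by simpa using hU.symm)
    have := hp N
    have := hk _ (QuotientGroup.mk' N.toSubgroup)
    exact hN ((QuotientGroup.eq_one_iff _).1 this) rfl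

end Pool.Agent.Results.MP_d2e4ca_al.SL2
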